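import Mathlib

/-! Counting matrices `w` over a finite field with prescribed values of the alternating matrix `w - wᵀ`. -/

set_option autoImplicit false
set_option linter.all false

open Matrix

namespace Pool.Agent.Q128.PI

/-- fibres of a homomorphism of finite groups -/
theorem card_fib {A B : Type*} [AddCommGroup A] [AddCommGroup B] [Fintype A] [DecidableEq B] (f : A →+ B) (w0 : A) :
    (Finset.univ.filter fun w => f w = f w0).card = (Finset.univ.filter fun w => f w = 0).card := by
  refine Finset.card_bij (fun w _ => w - w0) ?_ ?_ ?_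
  · intro w hw
    rw [Finset.mem_filter] at hw ⊢
    exact ⟨Finset.mem_univ _, by rw [map_sub, hw.2, sub_self]⟩
  · intro w _ w' _ h
    exact sub_left_injective h
  · intro w hw
    rw [Finset.mem_filter] at hw
    refine ⟨w + w0, ?_, by abel⟩
    rw [Finset.mem_filter]
    exact ⟨Finset.mem_univ _, by rw [map_add, hw.2, zero_add]⟩

theorem card_ker_mul {A B : Type*} [AddCommGroup A] [AddCommGroup B] [Fintype A] [DecidableEq B] (f : A →+ B) :
    (Finset.univ.filter fun w => f w = 0).card * (Finset.univ.image f).card = Fintype.card A := by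
  classical
  have h1 : Fintype.card A = ∑ b ∈ Finset.univ.image f, (Finset.univ.filter fun w => f w = b).card := by
    rw [← Finset.card_univ]
    exact Finset.card_eq_sum_card_image f Finset.univ
  rw [h1, Finset.sum_const_nat (m := (Finset.univ.filter fun w => f w = 0).card), mul_comm]
  intro b hb
  rw [Finset.mem_image] at hb
  obtain ⟨w0, _, rfl⟩ := hb
  exact card_fib f w0

variable {F : Type*} [Field F] [Fintype F] [DecidableEq F] {I : Type*} [Fintype I] [DecidableEq I]

/-- the alternating matrix `w - wᵀ` -/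
abbrev al (w : Matrix I I F) : Matrix I I F := w - w.transpose

omit [Fintype F] [DecidableEq F] [DecidableEq I] in
theorem al_dot (w : Matrix I I F) (a b : I → F) : a ⬝ᵥ (al w *ᵥ b) = - (b ⬝ᵥ (al w *ᵥ a)) := by
  rw [al, sub_mulVec, sub_mulVec, dotProduct_sub, dotProduct_sub, mulVec_transpose, mulVec_transpose,
    dotProduct_comm a (b ᵥ* w), dotProduct_comm b (a ᵥ* w), ← dotProduct_mulVec, ← dotProduct_mulVec]
  ring

omit [Fintype F] [DecidableEq F] [DecidableEq I] in
theorem al_self (w : Matrix I I F) (a : I → F) : a ⬝ᵥ (al w *ᵥ a) = 0 := by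
  rw [al, sub_mulVec, dotProduct_sub, mulVec_transpose, dotProduct_comm a (a ᵥ* w), ← dotProduct_mulVec, sub_self]

/-- the hyperplane orthogonal to a nonzero vector -/
theorem card_hyp (a : I → F) (ha : a ≠ 0) :
    (Finset.univ.filter fun y : I → F => a ⬝ᵥ y = 0).card * Fintype.card F = Fintype.card (I → F) := by
  let f : (I → F) →+ F := { toFun := fun y => a ⬝ᵥ y, map_zero' := dotProduct_zero _, map_add' := dotProduct_add _ }
  have h := card_ker_mul f
  have h1 : Finset.univ.image f = Finset.univ := by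
    apply Finset.image_univ_of_surjective
    obtain ⟨i, hi⟩ : ∃ i, a i ≠ 0 := by
      by_contra hc
      push Not at hc
      exact ha (funext hc)
    intro t
    refine ⟨Pi.single i (t / a i), ?_⟩
    change a ⬝ᵥ Pi.single i (t / a i) = t
    rw [dotProduct_single]
    field_simp
  rw [h1, Finset.card_univ] at h
  exact h

/-- evaluation at one vector -/
def ev1 (a : I → F) : Matrix I I F →+ (I → F) where
  toFun w := al w *ᵥ a
  map_zero' := by simp [al]
  map_add' w w' := by
    rw [← add_mulVec]
    congr 1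
    simp only [al, transpose_add]
    abel

/-- evaluation at two vectors -/
def ev2 (a b : I → F) : Matrix I I F →+ (I → F) × (I → F) := (ev1 a).prod (ev1 b)

omit [Fintype F] [DecidableEq F] in
theorem exists_ev1 (a : I → F) (ha : a ≠ 0) (y : I → F) (hy : a ⬝ᵥ y = 0) : ∃ w : Matrix I I F, al w *ᵥ a = y := by
  obtain ⟨i, hi⟩ : ∃ i, a i ≠ 0 := by
    by_contra hc
    push Not at hc
    exact ha (funext hc)
  let c : I → F := Pi.single i (a i)⁻¹
  have hc : c ⬝ᵥ a = 1 := by
    rw [dotProduct_comm, dotProduct_single, mul_inv_cancel₀ hi]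
  refine ⟨vecMulVec y c, ?_⟩
  rw [al, sub_mulVec, transpose_vecMulVec, vecMulVec_mulVec, vecMulVec_mulVec, hc, dotProduct_comm y a, hy]
  simp

omit [Fintype F] [DecidableEq F] in
theorem exists_ev2 (a b : I → F) (i j : I) (hij : a i * b j - a j * b i ≠ 0) (y z : I → F) (hy : a ⬝ᵥ y = 0)
    (hz : b ⬝ᵥ z = 0) (hyz : a ⬝ᵥ z + b ⬝ᵥ y = 0) : ∃ w : Matrix I I F, al w *ᵥ a = y ∧ al w *ᵥ b = z := by
  set δ := a i * b j - a j * b i with hδ
  let c : I → F := Pi.single i (b j / δ) - Pi.single j (b i / δ)
  let d : I → F := Pi.single j (a i / δ) - Pi.single i (a j / δ)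
  have hca : c ⬝ᵥ a = 1 := by
    rw [dotProduct_comm, dotProduct_sub, dotProduct_single, dotProduct_single]
    field_simp
    rw [hδ]
  have hcb : c ⬝ᵥ b = 0 := by
    rw [dotProduct_comm, dotProduct_sub, dotProduct_single, dotProduct_single]
    field_simp
    ring
  have hda : d ⬝ᵥ a = 0 := by
    rw [dotProduct_comm, dotProduct_sub, dotProduct_single, dotProduct_single]
    field_simp
    ring
  have hdb : d ⬝ᵥ b = 1 := by
    rw [dotProduct_comm, dotProduct_sub, dotProduct_single, dotProduct_single]
    field_simp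
    rw [hδ]
    ring
  refine ⟨vecMulVec y c + vecMulVec z d + (-(a ⬝ᵥ z)) • vecMulVec c d, ?_, ?_⟩
  · rw [al, transpose_add, transpose_add, transpose_smul, sub_mulVec, add_mulVec, add_mulVec, add_mulVec, add_mulVec,
      smul_mulVec, smul_mulVec, transpose_vecMulVec, transpose_vecMulVec, transpose_vecMulVec,
      vecMulVec_mulVec, vecMulVec_mulVec, vecMulVec_mulVec, vecMulVec_mulVec, vecMulVec_mulVec, vecMulVec_mulVec,
      hca, hda, dotProduct_comm y a, hy, dotProduct_comm z a]
    funext k
    simp
  · rw [al, transpose_add, transpose_add, transpose_smul, sub_mulVec, add_mulVec, add_mulVec, add_mulVec, add_mulVec,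
      smul_mulVec, smul_mulVec, transpose_vecMulVec, transpose_vecMulVec, transpose_vecMulVec,
      vecMulVec_mulVec, vecMulVec_mulVec, vecMulVec_mulVec, vecMulVec_mulVec, vecMulVec_mulVec, vecMulVec_mulVec,
      hcb, hdb, dotProduct_comm z b, hz, dotProduct_comm y b]
    funext k
    have : b ⬝ᵥ y = - (a ⬝ᵥ z) := by linear_combination hyz
    rw [this]
    simp

/-- **One vector.** -/
theorem fib1 (a : I → F) (ha : a ≠ 0) (y : I → F) (hy : a ⬝ᵥ y = 0) :
    (Finset.univ.filter fun w : Matrix I I F => al w *ᵥ a = y).card * Fintype.card (I → F) =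
      Fintype.card F * Fintype.card (Matrix I I F) := by
  obtain ⟨w0, hw0⟩ := exists_ev1 a ha y hy
  have h1 := card_fib (ev1 a) w0
  have h2 := card_ker_mul (ev1 a)
  have h3 : Finset.univ.image (ev1 a) = Finset.univ.filter fun y : I → F => a ⬝ᵥ y = 0 := by
    ext y'
    rw [Finset.mem_image, Finset.mem_filter]
    constructor
    · rintro ⟨w, _, rfl⟩
      exact ⟨Finset.mem_univ _, al_self w a⟩
    · rintro ⟨_, h⟩
      obtain ⟨w, hw⟩ := exists_ev1 a ha y' h
      exact ⟨w, Finset.mem_univ _, hw⟩
  rw [h3, ← h1] at h2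
  have h4 : (Finset.univ.filter fun w : Matrix I I F => al w *ᵥ a = y) =
      Finset.univ.filter fun w => ev1 a w = ev1 a w0 := by
    ext w
    simp only [Finset.mem_filter, ev1, AddMonoidHom.coe_mk, ZeroHom.coe_mk, hw0]
  rw [h4, ← h2, ← card_hyp a ha]
  ring

/-- **Two independent vectors**: an upper bound. -/
theorem fib2 (a b : I → F) (i j : I) (hij : a i * b j - a j * b i ≠ 0) (y z : I → F) :
    (Finset.univ.filter fun w : Matrix I I F => al w *ᵥ a = y ∧ al w *ᵥ b = z).card * Fintype.card (I → F) ^ 2 ≤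
      Fintype.card F ^ 3 * Fintype.card (Matrix I I F) := by
  rcases Finset.eq_empty_or_nonempty
    (Finset.univ.filter fun w : Matrix I I F => al w *ᵥ a = y ∧ al w *ᵥ b = z) with h | ⟨w0, hw0⟩
  · rw [h, Finset.card_empty, zero_mul]; exact Nat.zero_le _
  · rw [Finset.mem_filter] at hw0
    have h1 := card_fib (ev2 a b) w0
    have h2 := card_ker_mul (ev2 a b)
    let G : (I → F) × (I → F) →+ F × F × F :=
      { toFun := fun q => (a ⬝ᵥ q.1, b ⬝ᵥ q.2, a ⬝ᵥ q.2 + b ⬝ᵥ q.1)
        map_zero' := by simp
        map_add' := fun q q' => by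
          simp only [Prod.fst_add, Prod.snd_add, dotProduct_add, Prod.mk_add_mk]
          congr 2
          ring }
    have h3 : Finset.univ.image (ev2 a b) = Finset.univ.filter fun q => G q = 0 := by
      ext ⟨y', z'⟩
      rw [Finset.mem_image, Finset.mem_filter]
      constructor
      · rintro ⟨w, _, hw⟩
        refine ⟨Finset.mem_univ _, ?_⟩
        have e1 : al w *ᵥ a = y' := congrArg Prod.fst hw
        have e2 : al w *ᵥ b = z' := congrArg Prod.snd hw
        subst e1 e2
        change (_, _, _) = (0, 0, 0)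
        rw [al_self, al_self, al_dot w a b, neg_add_cancel]
      · rintro ⟨_, h⟩
        have e0 : (a ⬝ᵥ y', b ⬝ᵥ z', a ⬝ᵥ z' + b ⬝ᵥ y') = (0, 0, 0) := h
        rw [Prod.mk.injEq, Prod.mk.injEq] at e0
        obtain ⟨w, hw, hw'⟩ := exists_ev2 a b i j hij y' z' e0.1 e0.2.1 e0.2.2
        exact ⟨w, Finset.mem_univ _, Prod.ext hw hw'⟩
    have h4 := card_ker_mul G
    have h5 : (Finset.univ.image G).card ≤ Fintype.card F ^ 3 := by
      refine (Finset.card_le_univ _).trans ?_
      rw [Fintype.card_prod, Fintype.card_prod]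
      apply le_of_eq
      ring
    rw [h3, ← h1] at h2
    have h6 : (Finset.univ.filter fun w : Matrix I I F => al w *ᵥ a = y ∧ al w *ᵥ b = z) =
        Finset.univ.filter fun w => ev2 a b w = ev2 a b w0 := by
      ext w
      simp only [Finset.mem_filter, Finset.mem_univ, true_and]
      change _ ↔ (al w *ᵥ a, al w *ᵥ b) = (al w0 *ᵥ a, al w0 *ᵥ b)
      rw [hw0.2.1, hw0.2.2, Prod.mk.injEq]
    have h7 : Fintype.card ((I → F) × (I → F)) = Fintype.card (I → F) ^ 2 := by
      rw [Fintype.card_prod, sq]
    rw [h6]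
    rw [h7] at h4
    calc (Finset.univ.filter fun w => ev2 a b w = ev2 a b w0).card * Fintype.card (I → F) ^ 2
        = ((Finset.univ.filter fun w => ev2 a b w = ev2 a b w0).card *
            (Finset.univ.filter fun q => G q = 0).card) * (Finset.univ.image G).card := by
          rw [← h4]; ring
      _ = (Finset.univ.image G).card * Fintype.card (Matrix I I F) := by rw [h2]; ring
      _ ≤ _ := Nat.mul_le_mul_right _ h5

/-- dependent vectors -/
theorem dep_of (a b : I → F) (ha : a ≠ 0) (h : ∀ i j, a i * b j - a j * b i = 0) : ∃ t : F, b = t • a := by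
  obtain ⟨i, hi⟩ : ∃ i, a i ≠ 0 := by
    by_contra hc
    push Not at hc
    exact ha (funext hc)
  refine ⟨b i / a i, ?_⟩
  funext j
  rw [Pi.smul_apply, smul_eq_mul]
  field_simp
  linear_combination h i j

end Pool.Agent.Q128.PI
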