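import Mathlib
import Pool.Agent.Q128.PI.Two
import Pool.Agent.Y109.PI.Mat

/-! Degenerate translates with a simple root. -/

set_option autoImplicit false
set_option linter.all false

open Matrix

namespace Pool.Agent.Q128.PI

open Pool.Agent.Y109.PI

variable {F : Type*} [Field F] [Fintype F] [DecidableEq F] {I : Type*} [Fintype I] [DecidableEq I]

/-- the kernel of a sum of `r` decomposable matrices has dimension at least `|I| - 2 r` -/
theorem ker_sum (r : ℕ) (e f : Fin r → I → F) :
    Fintype.card I ≤ Module.finrank F (LinearMap.ker (∑ k, wdg (e k) (f k) : Matrix I I F).mulVecLin) + 2 * r := by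
  let L : (I → F) →ₗ[F] (Fin r → F) × (Fin r → F) :=
    ((Matrix.of e).mulVecLin).prod ((Matrix.of f).mulVecLin)
  have h1 := LinearMap.finrank_range_add_finrank_ker L
  have h2 : Module.finrank F (LinearMap.range L) ≤ 2 * r := by
    refine (Submodule.finrank_le _).trans ?_
    rw [Module.finrank_prod, Module.finrank_fintype_fun_eq_card, Fintype.card_fin]
    omega
  have h3 : LinearMap.ker L ≤ LinearMap.ker (∑ k, wdg (e k) (f k) : Matrix I I F).mulVecLin := by
    intro x hx
    rw [LinearMap.mem_ker] at hx
    have hx1 : ∀ k, e k ⬝ᵥ x = 0 := fun k => congrFun (congrArg Prod.fst hx) k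
    have hx2 : ∀ k, f k ⬝ᵥ x = 0 := fun k => congrFun (congrArg Prod.snd hx) k
    rw [LinearMap.mem_ker, Matrix.mulVecLin_apply, Matrix.sum_mulVec]
    refine Finset.sum_eq_zero fun k _ => ?_
    funext u
    simp only [mulVec, dotProduct, wdg, Matrix.of_apply, Pi.zero_apply]
    have e1 : ∀ w, (e k u * f k w - f k u * e k w) * x w = e k u * (f k w * x w) - f k u * (e k w * x w) := fun w => by
      ring
    simp only [e1, Finset.sum_sub_distrib, ← Finset.mul_sum]
    have h4 := hx1 k
    have h5 := hx2 k
    rw [dotProduct] at h4 h5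
    rw [h4, h5, mul_zero, mul_zero, sub_zero]
  have h4 := Submodule.finrank_mono h3
  rw [Module.finrank_fintype_fun_eq_card] at h1
  omega

/-- ranks of alternating matrices are even -/
theorem ker_parity (g r : ℕ) (hI : Fintype.card I = 2 * g) (C : Matrix I I F) (hC : AltM C) (hr : r ≤ g)
    (h : 2 * r ≤ Module.finrank F (LinearMap.ker C.mulVecLin) + 1) :
    2 * r ≤ Module.finrank F (LinearMap.ker C.mulVecLin) := by
  have h1 := LinearMap.finrank_range_add_finrank_ker C.mulVecLin
  rw [Module.finrank_fintype_fun_eq_card, hI] at h1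
  have h0 : C.map (algebraMap F F) = C := by
    ext u v; rfl
  obtain ⟨e, f, hef⟩ := decomp (R := F) (K := F) (fun a b h => h) (g - r) C hC (by
    rw [h0, Matrix.rank]
    omega)
  have h2 := ker_sum (g - r) e f
  rw [← hef, hI] at h2
  omega

theorem indep_of (a b : I → F) (h : LinearIndependent F ![a, b]) : Indep a b := by
  by_contra hc
  rw [Indep] at hc
  push Not at hc
  have ha : a ≠ 0 := by
    have := h.ne_zero 0
    simpa using this
  obtain ⟨t, ht⟩ := dep_of a b ha hc
  have h2 := LinearIndependent.pair_iff.1 h t (-1) (by rw [ht]; simp)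
  exact one_ne_zero (neg_eq_zero.1 h2.2)

theorem li_of {a b : I → F} (h : Indep a b) : LinearIndependent F ![a, b] := by
  rw [LinearIndependent.pair_iff]
  intro s t hst
  obtain ⟨i, j, hij⟩ := h
  have e1 := congrFun hst i
  have e2 := congrFun hst j
  simp only [Pi.add_apply, Pi.smul_apply, smul_eq_mul, Pi.zero_apply] at e1 e2
  constructor
  · have : s * (a i * b j - a j * b i) = 0 := by linear_combination b j * e1 - b i * e2
    exact (mul_eq_zero.1 this).resolve_right hij
  · have : t * (a i * b j - a j * b i) = 0 := by linear_combination a i * e2 - a j * e1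
    exact (mul_eq_zero.1 this).resolve_right hij

/-- **The dichotomy** for degenerate alternating matrices. -/
theorem dich (g : ℕ) (hI : Fintype.card I = 2 * g) (C D1 D2 : Matrix I I F) (hC : AltM C) (hdet : C.det = 0) :
    (∃ a b : I → F, Indep a b ∧ C *ᵥ a = 0 ∧ C *ᵥ b = 0 ∧ a ⬝ᵥ (D1 *ᵥ b) = 0 ∧ a ⬝ᵥ (D2 *ᵥ b) = 0) ∨
    ∃ a b : I → F, Indep a b ∧ C *ᵥ a = 0 ∧ C *ᵥ b = 0 ∧ (∀ c, C *ᵥ c = 0 → ∃ y z : F, c = y • a + z • b) ∧
      (a ⬝ᵥ (D1 *ᵥ b) ≠ 0 ∨ a ⬝ᵥ (D2 *ᵥ b) ≠ 0) := by
  classical
  set K := LinearMap.ker C.mulVecLin with hK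
  obtain ⟨v, hv0, hv⟩ := Matrix.exists_mulVec_eq_zero_iff.2 hdet
  have hvK : v ∈ K := hv
  have h1 : 0 < Module.finrank F K := by
    rw [Module.finrank_pos_iff_exists_ne_zero]
    exact ⟨⟨v, hvK⟩, fun h => hv0 (congrArg Subtype.val h)⟩
  have hg : 1 ≤ g := by
    by_contra h0
    have : Fintype.card I = 0 := by omega
    haveI := Fintype.card_eq_zero_iff.1 this
    exact hv0 (Subsingleton.elim _ _)
  have h2 : 2 ≤ Module.finrank F K := by
    have := ker_parity g 1 hI C hC hg (by rw [← hK]; omega)
    rw [← hK] at this
    omega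
  obtain ⟨y, hy⟩ := exists_linearIndependent_pair_of_one_lt_finrank (R := F) (M := K) (by omega)
    (x := ⟨v, hvK⟩) (fun h => hv0 (congrArg Subtype.val h))
  have hvy : LinearIndependent F ![v, (y : I → F)] := by
    rw [LinearIndependent.pair_iff] at hy ⊢
    intro s t hst
    exact hy s t (Subtype.ext hst)
  have hyK : C *ᵥ (y : I → F) = 0 := y.2
  by_cases h3 : v ⬝ᵥ (D1 *ᵥ (y : I → F)) = 0 ∧ v ⬝ᵥ (D2 *ᵥ (y : I → F)) = 0
  · exact Or.inl ⟨v, y, indep_of _ _ hvy, hv, hyK, h3.1, h3.2⟩
  · by_cases h4 : ∀ c, C *ᵥ c = 0 → ∃ s t : F, c = s • v + t • (y : I → F)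
    · refine Or.inr ⟨v, y, indep_of _ _ hvy, hv, hyK, h4, ?_⟩
      by_contra h5
      push Not at h5
      exact h3 h5
    · -- the kernel has dimension at least four
      push Not at h4
      obtain ⟨c, hc, hcn⟩ := h4
      left
      have h5 : 3 ≤ Module.finrank F K := by
        let S := Submodule.span F (Set.range ![v, (y : I → F)])
        have hS : Module.finrank F S = 2 := by
          rw [finrank_span_eq_card hvy, Fintype.card_fin]
        have hSK : S ≤ K := by
          rw [Submodule.span_le]
          rintro _ ⟨k, rfl⟩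
          fin_cases k
          · exact hvK
          · exact y.2
        have hlt : S < K := by
          refine lt_of_le_of_ne hSK fun he => ?_
          have hcS : c ∈ S := by rw [he]; exact hc
          have hr : Set.range ![v, (y : I → F)] = {v, (y : I → F)} := by
            ext x
            simp only [Set.mem_insert_iff, Set.mem_singleton_iff, Set.mem_range]
            constructor
            · rintro ⟨k, rfl⟩
              fin_cases k
              · left; rfl
              · right; rfl
            · rintro (rfl | rfl)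
              · exact ⟨0, rfl⟩
              · exact ⟨1, rfl⟩
          simp only [S] at hcS
          rw [hr, Submodule.mem_span_pair] at hcS
          obtain ⟨s, t, hst⟩ := hcS
          exact hcn s t hst.symm
        have := Submodule.finrank_lt_finrank_of_lt hlt
        omega
      have hg2 : 2 ≤ g := by
        have h6 : Module.finrank F K ≤ 2 * g := by
          have := Submodule.finrank_le K
          rw [Module.finrank_fintype_fun_eq_card, hI] at this
          exact this
        omega
      have h6 : 4 ≤ Module.finrank F K := by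
        have := ker_parity g 2 hI C hC hg2 (by rw [← hK]; omega)
        rw [← hK] at this
        omega
      let φ : K →ₗ[F] F × F :=
        { toFun := fun c => (v ⬝ᵥ (D1 *ᵥ (c : I → F)), v ⬝ᵥ (D2 *ᵥ (c : I → F)))
          map_add' := fun c c' => by
            simp only [Submodule.coe_add, mulVec_add, dotProduct_add, Prod.mk_add_mk]
          map_smul' := fun t c => by
            simp only [Submodule.coe_smul, mulVec_smul, dotProduct_smul, RingHom.id_apply, Prod.smul_mk] }
      -- restrict to the vectors orthogonal to `v`; they form a space of dimension at least two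
      have h7 := LinearMap.finrank_range_add_finrank_ker φ
      have h8 : Module.finrank F (LinearMap.range φ) ≤ 2 := by
        refine (Submodule.finrank_le _).trans ?_
        rw [Module.finrank_prod, Module.finrank_self]
      have h9 : 1 < Module.finrank F (LinearMap.ker φ) := by omega
      -- an element of the kernel of `φ` independent of `v`
      obtain ⟨c', hc'1, hc'2⟩ : ∃ c' : K, c' ∈ LinearMap.ker φ ∧ ∀ t : F, (c' : I → F) ≠ t • v := by
        by_contra hcon
        push Not at hcon
        have hle : LinearMap.ker φ ≤ Submodule.span F {(⟨v, hvK⟩ : K)} := by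
          intro x hx
          obtain ⟨t, ht⟩ := hcon x hx
          rw [Submodule.mem_span_singleton]
          exact ⟨t, Subtype.ext ht.symm⟩
        have := Submodule.finrank_mono hle
        have h10 := finrank_span_le_card (R := F) ({(⟨v, hvK⟩ : K)} : Set K)
        simp only [Set.toFinset_singleton, Finset.card_singleton] at h10
        omega
      refine ⟨v, c', ?_, hv, c'.2, ?_, ?_⟩
      · by_contra hc2
        rw [Indep] at hc2
        push Not at hc2
        obtain ⟨t, ht⟩ := dep_of v c' hv0 hc2
        exact hc'2 t ht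
      · exact congrArg Prod.fst (LinearMap.mem_ker.1 hc'1)
      · exact congrArg Prod.snd (LinearMap.mem_ker.1 hc'1)

end Pool.Agent.Q128.PI
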