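import Mathlib
import Pool.Agent.Q128.PI.AllPow

/-! Degenerate translates modulo `n` for the relations of real multiplication. -/

set_option autoImplicit false
set_option linter.all false

open Matrix

noncomputable section

namespace Pool.Agent.Q128.PI

open Pool.Agent.Y109.PI

universe v

variable {O : Type v} [CommRing O] {g : ℕ} (ε : Module.Basis (Fin g) ℤ O)

/-- one prime -/
theorem deg_prime (hg : 0 < g) (n p : ℕ) (hp : p.Prime) (hn : 0 < n) (hpn : p ∣ n)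
    (hd : ¬ (p : ℤ) ∣ Algebra.discr ℤ ε) (hφ : p ^ 2 ∣ n → Nonempty (O →+* ZMod p))
    (b : Matrix (Fin g ⊕ Fin g) (Fin g ⊕ Fin g) ℤ) (hb : Alt b) :
    ∃ (c : Fin g → ℤ) (e f : Fin (g - 1) × (Fin g ⊕ Fin g) → ℤ), ∀ u v,
      ((p ^ n.factorization p : ℕ) : ℤ) ∣ (b + ∑ i, c i • dif (rmw ε i)) u v -
        (∑ i, wdg (fun u => e (i, u)) (fun u => f (i, u))) u v := by
  haveI : Fact p.Prime := ⟨hp⟩
  haveI : NeZero p := ⟨hp.ne_zero⟩
  have hI : Fintype.card (Fin g ⊕ Fin g) = 2 * g := by simp [two_mul]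
  have hfac : 0 < n.factorization p := hp.factorization_pos_of_dvd hn.ne' hpn
  rcases Nat.lt_or_ge (n.factorization p) 2 with h2 | h2
  · have h1 : n.factorization p = 1 := by omega
    obtain ⟨c, e, f, h⟩ := ord_deg p g hp.prime.squarefree hg hI (rmw ε) (fun q hq hqp => by
      rw [(Nat.prime_dvd_prime_iff_eq hq hp).1 hqp]
      exact rm_ord ε p hg hd) b hb
    refine ⟨c, fun q => e q.1 q.2, fun q => f q.1 q.2, fun u v => ?_⟩
    rw [h1, pow_one]
    exact h u v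
  · have hp2 : p ^ 2 ∣ n := (hp.pow_dvd_iff_le_factorization hn.ne').2 h2
    obtain ⟨φ⟩ := hφ hp2
    obtain ⟨c, a, b', hab, h3, h4, h5, h6⟩ := rm_simple ε p φ hg hd (red p b) (hb.map' _)
    obtain ⟨i, j, hij⟩ := hab
    have hM : (b + ∑ i, ((c i).val : ℤ) • dif (rmw ε i)).map (Int.castRingHom (ZMod p)) =
        red p b + ∑ i, c i • red p (dif (rmw ε i)) := by
      have h := red_add_sum p b (fun i => ((c i).val : ℤ)) (fun i => dif (rmw ε i))
      rw [red] at h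
      rw [h]
      simp only [vcast]
    have hD : (∑ i, ((cv ε p φ i).val : ℤ) • dif (rmw ε i)).map (Int.castRingHom (ZMod p)) =
        ∑ i, cv ε p φ i • red p (dif (rmw ε i)) := by
      have h := red_add_sum p 0 (fun i => ((cv ε p φ i).val : ℤ)) (fun i => dif (rmw ε i))
      rw [zero_add, red] at h
      rw [h]
      simp only [vcast]
      rw [red, Matrix.map_zero _ (map_zero _), zero_add]
    obtain ⟨x, e, f, h⟩ := lift_decomp p (n.factorization p) hfac g hI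
      (b + ∑ i, ((c i).val : ℤ) • dif (rmw ε i)) (∑ i, ((cv ε p φ i).val : ℤ) • dif (rmw ε i))
      (hb.add (Alt.sum _ _ fun i => (alt_dif _).smul _)) (Alt.sum _ _ fun i => (alt_dif _).smul _) a b' i j hij
      (by rw [hM]; exact h3) (by rw [hM]; exact h4) (by rw [hM]; exact h5) (by rw [hD]; exact h6)
    refine ⟨fun i => ((c i).val : ℤ) + x * ((cv ε p φ i).val : ℤ), fun q => e q.1 q.2, fun q => f q.1 q.2,
      fun u v => ?_⟩
    have e1 : b + ∑ i, (((c i).val : ℤ) + x * ((cv ε p φ i).val : ℤ)) • dif (rmw ε i) =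
        b + ∑ i, ((c i).val : ℤ) • dif (rmw ε i) + x • ∑ i, ((cv ε p φ i).val : ℤ) • dif (rmw ε i) := by
      rw [Finset.smul_sum, add_assoc, ← Finset.sum_add_distrib]
      congr 1
      exact Finset.sum_congr rfl fun i _ => by rw [add_smul, mul_smul]
    rw [e1]
    exact h u v

/-- all primes at once -/
theorem deg_all (hg : 0 < g) (n : ℕ) (hn : 0 < n)
    (hd : ∀ p : ℕ, p.Prime → p ∣ n → ¬ (p : ℤ) ∣ Algebra.discr ℤ ε)
    (hφ : ∀ p : ℕ, p.Prime → p ^ 2 ∣ n → Nonempty (O →+* ZMod p))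
    (b : Matrix (Fin g ⊕ Fin g) (Fin g ⊕ Fin g) ℤ) (hb : Alt b) :
    ∃ (c : Fin g → ℤ) (e f : Fin (g - 1) → (Fin g ⊕ Fin g) → ℤ), ∀ u v,
      (n : ℤ) ∣ (b + ∑ i, c i • dif (rmw ε i)) u v - (∑ i, wdg (e i) (f i)) u v := by
  have h1 : ∀ p : ℕ, ∃ (c : Fin g → ℤ) (e f : Fin (g - 1) × (Fin g ⊕ Fin g) → ℤ), p.Prime → p ∣ n → ∀ u v,
      ((p ^ n.factorization p : ℕ) : ℤ) ∣ (b + ∑ i, c i • dif (rmw ε i)) u v -
        (∑ i, wdg (fun u => e (i, u)) (fun u => f (i, u))) u v := by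
    intro p
    by_cases hp : p.Prime ∧ p ∣ n
    · obtain ⟨c, e, f, h⟩ := deg_prime ε hg n p hp.1 hn hp.2 (hd p hp.1 hp.2) (hφ p hp.1) b hb
      exact ⟨c, e, f, fun _ _ => h⟩
    · exact ⟨0, 0, 0, fun a b => absurd ⟨a, b⟩ hp⟩
  choose a e f haef using h1
  obtain ⟨x, hx⟩ := crt_pow_fun n a
  obtain ⟨y, hy⟩ := crt_pow_fun n e
  obtain ⟨y', hy'⟩ := crt_pow_fun n f
  refine ⟨x, fun i u => y (i, u), fun i u => y' (i, u), fun u v => ?_⟩
  refine dvd_of_pow n hn _ fun p hp hpn => ?_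
  have h0 := haef p hp hpn u v
  set q : ℕ := p ^ n.factorization p with hq
  rw [← ZMod.intCast_zmod_eq_zero_iff_dvd] at h0 ⊢
  have h3 : ∀ i, ((x i : ℤ) : ZMod q) = a p i := fun i => by
    rw [← sub_eq_zero, ← Int.cast_sub, ZMod.intCast_zmod_eq_zero_iff_dvd]
    exact hx p hp hpn hn i
  have h4 : ∀ i, ((y i : ℤ) : ZMod q) = e p i := fun i => by
    rw [← sub_eq_zero, ← Int.cast_sub, ZMod.intCast_zmod_eq_zero_iff_dvd]
    exact hy p hp hpn hn i
  have h5 : ∀ i, ((y' i : ℤ) : ZMod q) = f p i := fun i => by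
    rw [← sub_eq_zero, ← Int.cast_sub, ZMod.intCast_zmod_eq_zero_iff_dvd]
    exact hy' p hp hpn hn i
  rw [← h0]
  simp only [Matrix.add_apply, Matrix.sum_apply, Matrix.smul_apply, wdg, Matrix.of_apply, smul_eq_mul]
  push_cast
  simp only [h3, h4, h5]

section

variable {G B : Type*} [CommGroup G] [CommGroup B] {s : G →* G →* B}

/-- product of `g - 1` symbols modulo lower terms, from degenerate translates -/
theorem abs_gen (hanti : ∀ a b, s a b = (s b a)⁻¹) (n : ℕ)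
    (htors : ∀ a b, s a b ^ n = 1) (ε : G)
    (H : Subgroup G) (hε : ε ∈ H) (hdiag : ∀ a, s a a = 1 ∨ s a a = s a ε) (V : Subgroup B)
    (hV : ∀ a ∈ H, ∀ b ∈ H, s a b ∈ V) {I : Type*} [Fintype I] [DecidableEq I] (g : ℕ)
    (z : I → G) (w : Fin g → I → I → ℤ) (hw : ∀ i, Q s z (w i) ∈ low s H V z)
    (hdeg : ∀ b : Matrix I I ℤ, Alt b → ∃ (c : Fin g → ℤ) (e f : Fin (g - 1) → I → ℤ), ∀ u v,
      (n : ℤ) ∣ (b + ∑ i, c i • dif (w i)) u v - (∑ i, wdg (e i) (f i)) u v)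
    (α : B) (hα : α ∈ Subgroup.closure {γ | ∃ a ∈ H ⊔ Subgroup.closure (Set.range z),
      ∃ b ∈ H ⊔ Subgroup.closure (Set.range z), γ = s a b}) :
    ∃ x y : Fin (g - 1) → G, α * (∏ i, s (x i) (y i))⁻¹ ∈ low s H V z := by
  obtain ⟨w1, hw1⟩ := exists_Q hanti H V hV z α hα
  obtain ⟨c, e, f, h⟩ := hdeg (dif w1) (alt_dif w1)
  refine ⟨fun i => mon z (e i), fun i => mon z (f i), ?_⟩
  have h1 := mod_low hanti n htors ε H hε hdiag V z (w1 + ∑ i, c i • w i) (g - 1) e f (by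
    intro u v
    have e1 : (w1 + ∑ i, c i • w i) u v - (w1 + ∑ i, c i • w i) v u = (dif w1 + ∑ i, c i • dif (w i)) u v := by
      rw [← dif_comb]
      simp only [Pi.add_apply, Matrix.add_apply, Matrix.of_apply, dif]
      ring
    rw [e1]
    exact h u v)
  rw [Q_add, Q_comb] at h1
  have hw0 : ∏ i, Q s z (w i) ^ c i ∈ low s H V z :=
    Subgroup.prod_mem _ fun i _ => Subgroup.zpow_mem _ (hw i) _
  have h3 := Subgroup.mul_mem _ (Subgroup.mul_mem _ hw1 h1) (Subgroup.inv_mem _ hw0)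
  have e1 : ∀ p q r : B, α * p⁻¹ * (p * q * r) * q⁻¹ = α * r := by
    intro p q r
    calc α * p⁻¹ * (p * q * r) * q⁻¹ = α * r * (p * p⁻¹) * (q * q⁻¹) := by
          simp only [mul_assoc, mul_comm, mul_left_comm]
      _ = α * r := by rw [mul_inv_cancel, mul_inv_cancel, mul_one, mul_one]
  rw [e1] at h3
  exact h3

end

end Pool.Agent.Q128.PI
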